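import Mathlib

/-!
Irreducibility of the polynomial of the deltoid.
-/

set_option autoImplicit false

open Polynomial

namespace Run7.h212.Deltoid

/-- no polynomial solution of small degree -/
lemma no_small (a b c : ℂ) (h : ∀ x : ℂ, (a * x ^ 2 + b * x + c) ^ 3
    - x ^ 2 / 4 * (a * x ^ 2 + b * x + c) ^ 2 - 9 / 2 * x * (a * x ^ 2 + b * x + c)
    + x ^ 3 + 27 / 4 = 0) : False := by
  have h0 := h 0
  have h1 := h 1
  have h2 := h (-1)
  have h3 := h 2
  have h4 := h (-2)
  have h5 := h 3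
  have h6 := h (-3)
  have hc : c ≠ 0 := by
    rintro rfl
    norm_num at h0
  -- coefficient of x
  have k1 : 3 * b * c ^ 2 - 9 / 2 * c = 0 := by
    linear_combination (3/4) * h1 - (3/4) * h2 - (3/20) * h3 + (3/20) * h4 + (1/60) * h5 - (1/60) * h6
  have k6 : a ^ 3 - a ^ 2 / 4 = 0 := by
    linear_combination -(1/36) * h0 + (1/48) * h1 + (1/48) * h2 - (1/120) * h3 - (1/120) * h4
      + (1/720) * h5 + (1/720) * h6
  have k5 : 3 * a ^ 2 * b - a * b / 2 = 0 := by
    linear_combination (1/48) * h1 - (1/48) * h2 - (1/60) * h3 + (1/60) * h4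
      + (1/240) * h5 - (1/240) * h6
  have k4 : 3 * a ^ 2 * c + 3 * a * b ^ 2 - (b ^ 2 + 2 * a * c) / 4 = 0 := by
    linear_combination (7/18) * h0 - (13/48) * h1 - (13/48) * h2 + (1/12) * h3 + (1/12) * h4
      - (1/144) * h5 - (1/144) * h6
  have hbc : b * c = 3 / 2 := by
    have : 3 * c * (b * c - 3 / 2) = 0 := by linear_combination k1
    rcases mul_eq_zero.1 this with h | h
    · exact absurd (by simpa using h) hc
    · linear_combination h
  have hb : b ≠ 0 := by
    rintro rfl
    norm_num at hbc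
  have ha : a ^ 2 * (a - 1 / 4) = 0 := by linear_combination k6
  rcases mul_eq_zero.1 ha with h | h
  · have ha0 : a = 0 := by simpa using h
    subst ha0
    apply hb
    have : b ^ 2 = 0 := by linear_combination -4 * k4
    simpa using this
  · have ha1 : a = 1 / 4 := by linear_combination h
    subst ha1
    apply hb
    linear_combination 16 * k5

lemma no_poly (r : ℂ[X]) (h : r ^ 3 - C (1/4 : ℂ) * X ^ 2 * r ^ 2 - C (9/2 : ℂ) * X * r + X ^ 3
    + C (27/4 : ℂ) = 0) : False := by
  by_cases hd : r.natDegree ≤ 2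
  · have hr : r = C (r.coeff 2) * X ^ 2 + C (r.coeff 1) * X + C (r.coeff 0) := by
      apply Polynomial.eq_quadratic_of_degree_le_two
      exact Polynomial.natDegree_le_iff_degree_le.1 hd
    apply no_small (r.coeff 2) (r.coeff 1) (r.coeff 0)
    intro x
    have h1 := congrArg (Polynomial.eval x) h
    rw [hr] at h1
    simp only [eval_add, eval_sub, eval_mul, eval_pow, eval_C, eval_X, eval_zero] at h1
    linear_combination h1
  · push Not at hd
    have h1 : r ^ 3 = C (1/4 : ℂ) * X ^ 2 * r ^ 2 + C (9/2 : ℂ) * X * r - X ^ 3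
      - C (27/4 : ℂ) := by linear_combination h
    have h2 : (r ^ 3).natDegree = 3 * r.natDegree := Polynomial.natDegree_pow _ _
    have h3 : (C (1/4 : ℂ) * X ^ 2 * r ^ 2 + C (9/2 : ℂ) * X * r - X ^ 3
      - C (27/4 : ℂ)).natDegree ≤ 2 * r.natDegree + 2 := by
      have e1 : (C (1/4 : ℂ) * X ^ 2).natDegree ≤ 2 := by compute_degree
      have e2 : (r ^ 2).natDegree ≤ 2 * r.natDegree := natDegree_pow_le
      have e3 : (C (1/4 : ℂ) * X ^ 2 * r ^ 2).natDegree ≤ 2 * r.natDegree + 2 :=
        natDegree_mul_le.trans (by omega)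
      have e4 : (C (9/2 : ℂ) * X).natDegree ≤ 1 := by compute_degree
      have e5 : (C (9/2 : ℂ) * X * r).natDegree ≤ 2 * r.natDegree + 2 :=
        natDegree_mul_le.trans (by omega)
      have e6 : (X ^ 3 : ℂ[X]).natDegree ≤ 2 * r.natDegree + 2 := by
        rw [natDegree_X_pow]; omega
      have e7 : (C (27/4 : ℂ)).natDegree ≤ 2 * r.natDegree + 2 := by
        rw [natDegree_C]; omega
      exact natDegree_sub_le_of_le (natDegree_sub_le_of_le (natDegree_add_le_of_degree_le e3 e5) e6) e7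
        |>.trans (by simp)
    rw [← h1, h2] at h3
    omega

open MvPolynomial in
/-- the polynomial of the deltoid -/
noncomputable def poly : MvPolynomial (Fin 2) ℂ :=
  MvPolynomial.X 0 ^ 2 * MvPolynomial.X 1 ^ 2 + MvPolynomial.C 18 * MvPolynomial.X 0 * MvPolynomial.X 1
    - MvPolynomial.C 4 * MvPolynomial.X 0 ^ 3 - MvPolynomial.C 4 * MvPolynomial.X 1 ^ 3
    - MvPolynomial.C 27

theorem irreducible_poly : Irreducible poly := by
  rw [← MulEquiv.irreducible_iff (MvPolynomial.finSuccEquiv ℂ 1)]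
  set W : MvPolynomial (Fin 1) ℂ := MvPolynomial.X 0 with hW
  set Q : (MvPolynomial (Fin 1) ℂ)[X] := X ^ 3 - C (MvPolynomial.C (1/4) * W ^ 2) * X ^ 2
    - C (MvPolynomial.C (9/2) * W) * X + C (W ^ 3 + MvPolynomial.C (27/4)) with hQ
  have hP : MvPolynomial.finSuccEquiv ℂ 1 poly = C (MvPolynomial.C (-4 : ℂ)) * Q := by
    have e0 : MvPolynomial.finSuccEquiv ℂ 1 (MvPolynomial.X 0) = X :=
      MvPolynomial.finSuccEquiv_X_zero
    have e1 : MvPolynomial.finSuccEquiv ℂ 1 (MvPolynomial.X 1) = C W :=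
      MvPolynomial.finSuccEquiv_X_succ (j := (0 : Fin 1))
    have eC : ∀ a : ℂ, MvPolynomial.finSuccEquiv ℂ 1 (MvPolynomial.C a) = C (MvPolynomial.C a) :=
      fun a => by
        have := (MvPolynomial.finSuccEquiv ℂ 1).commutes a
        simpa [MvPolynomial.algebraMap_eq] using this
    rw [poly]
    simp only [map_sub, map_add, map_mul, map_pow, e0, e1, eC, hQ]
    have c1 : (MvPolynomial.C (-4 : ℂ) : MvPolynomial (Fin 1) ℂ) = -MvPolynomial.C 4 := by
      rw [map_neg]
    have c2 : (MvPolynomial.C (4 : ℂ) : MvPolynomial (Fin 1) ℂ) * MvPolynomial.C (1/4) = 1 := by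
      rw [← map_mul]; norm_num
    have c3 : (MvPolynomial.C (4 : ℂ) : MvPolynomial (Fin 1) ℂ) * MvPolynomial.C (9/2)
        = MvPolynomial.C 18 := by
      rw [← map_mul]; norm_num
    have c4 : (MvPolynomial.C (4 : ℂ) : MvPolynomial (Fin 1) ℂ) * MvPolynomial.C (27/4)
        = MvPolynomial.C 27 := by
      rw [← map_mul]; norm_num
    have d1 := congrArg (C : MvPolynomial (Fin 1) ℂ → _) c1
    have d2 := congrArg (C : MvPolynomial (Fin 1) ℂ → _) c2
    have d3 := congrArg (C : MvPolynomial (Fin 1) ℂ → _) c3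
    have d4 := congrArg (C : MvPolynomial (Fin 1) ℂ → _) c4
    simp only [map_mul, map_neg, map_one] at d1 d2 d3 d4
    rw [map_neg, map_neg, ← d3, ← d4]
    linear_combination (- (X ^ 2 * (C W) ^ 2)) * d2
  have hu : IsUnit (C (MvPolynomial.C (-4 : ℂ)) : (MvPolynomial (Fin 1) ℂ)[X]) := by
    apply IsUnit.map
    apply IsUnit.map
    exact (by norm_num : (-4 : ℂ) ≠ 0).isUnit
  have hcoe : (MvPolynomial.finSuccEquiv ℂ 1) poly = C (MvPolynomial.C (-4 : ℂ)) * Q := hP
  change Irreducible ((MvPolynomial.finSuccEquiv ℂ 1) poly)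
  rw [hcoe, irreducible_isUnit_mul hu]
  have hmonic : Q.Monic := by
    rw [hQ]
    monicity!
  have hdeg : Q.natDegree = 3 := by
    rw [hQ]
    compute_degree!
  rw [Polynomial.Monic.irreducible_iff_roots_eq_zero_of_degree_le_three hmonic (by omega) (by omega)]
  rw [Multiset.eq_zero_iff_forall_notMem]
  intro r hr
  rw [mem_roots hmonic.ne_zero, IsRoot.def, hQ] at hr
  simp only [eval_add, eval_sub, eval_mul, eval_pow, eval_C, eval_X] at hr
  apply no_poly (MvPolynomial.aeval (fun _ : Fin 1 => (X : ℂ[X])) r)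
  have h := congrArg (MvPolynomial.aeval (fun _ : Fin 1 => (X : ℂ[X]))) hr
  simp only [map_add, map_sub, map_mul, map_pow, map_zero, hW, MvPolynomial.aeval_X,
    MvPolynomial.aeval_C, Polynomial.algebraMap_eq] at h
  linear_combination h

end Run7.h212.Deltoid
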