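import Mathlib

/-!
The punctured neighbourhoods of a cusp of the deltoid, in the parameter `w = t / t₀ - 1`.
-/

set_option autoImplicit false

namespace Run7.h212.Deltoid

/-- distance of the first coordinates -/
noncomputable def g (w : ℂ) : ℝ := ‖w‖ ^ 2 * ‖3 + 2 * w‖ / ‖1 + w‖ ^ 2
/-- distance of the second coordinates -/
noncomputable def k (w : ℂ) : ℝ := ‖w‖ ^ 2 * ‖3 + w‖ / ‖1 + w‖

/-- the set of parameters -/
def W (δ : ℝ) : Set ℂ := {w | w ≠ 0 ∧ 1 + w ≠ 0 ∧ g w ^ 2 + k w ^ 2 < δ ^ 2}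

lemma nsq (z : ℂ) : ‖z‖ ^ 2 = z.re ^ 2 + z.im ^ 2 := by
  rw [Complex.sq_norm, Complex.normSq_apply]; ring

lemma mono1 {w : ℂ} (hw : ‖w‖ ≤ 1 / 10) {l : ℝ} (h0 : 0 ≤ l) (h1 : l ≤ 1) :
    l * ‖1 + w‖ ^ 2 ≤ ‖1 + l * w‖ ^ 2 := by
  have hm : w.re ^ 2 + w.im ^ 2 ≤ 1 := by
    rw [← nsq]
    nlinarith [norm_nonneg w]
  rw [nsq, nsq]
  simp only [Complex.add_re, Complex.one_re, Complex.add_im, Complex.one_im, Complex.re_ofReal_mul,
    Complex.im_ofReal_mul]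
  have : 0 ≤ (1 - l) * (1 - l * (w.re ^ 2 + w.im ^ 2)) := by
    apply mul_nonneg (by linarith)
    nlinarith [sq_nonneg w.re, sq_nonneg w.im]
  nlinarith

lemma mono2 {w : ℂ} (hw : ‖w‖ ≤ 1 / 10) {l : ℝ} (h0 : 0 ≤ l) (h1 : l ≤ 1) :
    l * ‖1 + w‖ ≤ ‖1 + l * w‖ := by
  have h := mono1 hw h0 h1
  apply le_of_sq_le_sq _ (norm_nonneg _)
  calc (l * ‖1 + w‖) ^ 2 = l * (l * ‖1 + w‖ ^ 2) := by ring
    _ ≤ 1 * (l * ‖1 + w‖ ^ 2) := by
        apply mul_le_mul_of_nonneg_right h1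
        positivity
    _ ≤ ‖1 + l * w‖ ^ 2 := by linarith

lemma re_bound {w : ℂ} (hw : ‖w‖ ≤ 1 / 10) : -(1 / 10) ≤ w.re := by
  have := Complex.abs_re_le_norm w
  have := abs_le.1 (this.trans hw)
  exact this.1

lemma mono4 (c : ℝ) (hc : 0 ≤ c) (hc2 : c ≤ 2) {w : ℂ} (hw : ‖w‖ ≤ 1 / 10) {l : ℝ} (h0 : 0 ≤ l)
    (h1 : l ≤ 1) : l * ‖3 + c * (l * w)‖ ≤ ‖3 + c * w‖ := by
  apply le_of_sq_le_sq _ (norm_nonneg _)
  rw [mul_pow, nsq, nsq]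
  have hx := re_bound hw
  simp only [Complex.add_re, Complex.add_im, Complex.re_ofReal_mul, Complex.im_ofReal_mul,
    Complex.re_ofNat, Complex.im_ofNat]
  have e : (3 + c * w.re) ^ 2 + (0 + c * w.im) ^ 2 -
      l ^ 2 * ((3 + c * (l * w.re)) ^ 2 + (0 + c * (l * w.im)) ^ 2) =
      9 * (1 - l ^ 2) + 6 * c * w.re * (1 - l ^ 3)
        + c ^ 2 * (w.re ^ 2 + w.im ^ 2) * (1 - l ^ 4) := by ring
  have e1 : 0 ≤ c ^ 2 * (w.re ^ 2 + w.im ^ 2) * (1 - l ^ 4) := by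
    apply mul_nonneg (by positivity)
    have : l ^ 4 ≤ 1 := pow_le_one₀ h0 h1
    linarith
  have e2 : 0 ≤ 1 - l ^ 3 := by
    have : l ^ 3 ≤ 1 := pow_le_one₀ h0 h1
    linarith
  have e3 : 1 - l ^ 3 ≤ 3 / 2 * (1 - l ^ 2) := by
    have : 0 ≤ (1 - l) * (1 - l) * (1 + 2 * l) := by
      apply mul_nonneg (mul_nonneg (by linarith) (by linarith)) (by linarith)
    nlinarith
  have e4 : -(12 / 10) * (1 - l ^ 3) ≤ 6 * c * w.re * (1 - l ^ 3) := by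
    apply mul_le_mul_of_nonneg_right _ e2
    nlinarith
  nlinarith

lemma one_add_pos {w : ℂ} (hw : ‖w‖ ≤ 1 / 10) : 9 / 10 ≤ ‖1 + w‖ := by
  have h := norm_sub_norm_le (1 : ℂ) (-w)
  rw [norm_neg, norm_one, sub_neg_eq_add] at h
  linarith

lemma g_mono {w : ℂ} (hw : ‖w‖ ≤ 1 / 10) {l : ℝ} (h0 : 0 ≤ l) (h1 : l ≤ 1) :
    g (l * w) ≤ g w := by
  have hlw : ‖(l : ℂ) * w‖ ≤ 1 / 10 := by
    rw [norm_mul, Complex.norm_real, Real.norm_eq_abs, abs_of_nonneg h0]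
    nlinarith [norm_nonneg w]
  have p1 := one_add_pos hw
  have p2 := one_add_pos hlw
  unfold g
  rw [div_le_div_iff₀ (by positivity) (by positivity)]
  rw [norm_mul, Complex.norm_real, Real.norm_eq_abs, abs_of_nonneg h0]
  have a1 := mono1 hw h0 h1
  have a2 := mono4 2 (by norm_num) le_rfl hw h0 h1
  push_cast at a2
  have a3 : (l * ‖3 + 2 * (l * w)‖) * (l * ‖1 + w‖ ^ 2) ≤ ‖3 + 2 * w‖ * ‖1 + l * w‖ ^ 2 :=
    mul_le_mul a2 a1 (by positivity) (norm_nonneg _)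
  calc (l * ‖w‖) ^ 2 * ‖3 + 2 * (l * w)‖ * ‖1 + w‖ ^ 2
      = ‖w‖ ^ 2 * ((l * ‖3 + 2 * (l * w)‖) * (l * ‖1 + w‖ ^ 2)) := by ring
    _ ≤ ‖w‖ ^ 2 * (‖3 + 2 * w‖ * ‖1 + l * w‖ ^ 2) := by
        apply mul_le_mul_of_nonneg_left a3 (by positivity)
    _ = _ := by ring

lemma k_mono {w : ℂ} (hw : ‖w‖ ≤ 1 / 10) {l : ℝ} (h0 : 0 ≤ l) (h1 : l ≤ 1) :
    k (l * w) ≤ k w := by
  have hlw : ‖(l : ℂ) * w‖ ≤ 1 / 10 := by
    rw [norm_mul, Complex.norm_real, Real.norm_eq_abs, abs_of_nonneg h0]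
    nlinarith [norm_nonneg w]
  have p1 := one_add_pos hw
  have p2 := one_add_pos hlw
  unfold k
  rw [div_le_div_iff₀ (by positivity) (by positivity)]
  rw [norm_mul, Complex.norm_real, Real.norm_eq_abs, abs_of_nonneg h0]
  have a1 := mono2 hw h0 h1
  have a2 := mono4 1 (by norm_num) (by norm_num) hw h0 h1
  push_cast at a2
  rw [one_mul, one_mul] at a2
  have a3 : (l * ‖3 + l * w‖) * (l * ‖1 + w‖) ≤ ‖3 + w‖ * ‖1 + l * w‖ :=
    mul_le_mul a2 a1 (by positivity) (norm_nonneg _)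
  calc (l * ‖w‖) ^ 2 * ‖3 + (l * w)‖ * ‖1 + w‖
      = ‖w‖ ^ 2 * ((l * ‖3 + (l * w)‖) * (l * ‖1 + w‖)) := by ring
    _ ≤ ‖w‖ ^ 2 * (‖3 + w‖ * ‖1 + l * w‖) := by
        apply mul_le_mul_of_nonneg_left a3 (by positivity)
    _ = _ := by ring

lemma g_nonneg (w : ℂ) : 0 ≤ g w := by unfold g; positivity
lemma k_nonneg (w : ℂ) : 0 ≤ k w := by unfold k; positivity

/-- the parameters of a small neighbourhood are small -/
lemma small_of_mem {δ : ℝ} (h0 : 0 < δ) (h1 : δ < 1 / 1000) {w : ℂ} (hw : w ∈ W δ) :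
    ‖w‖ < 1 / 10 := by
  obtain ⟨-, hw1, hN⟩ := hw
  by_contra hcon
  push Not at hcon
  have hδ : δ ^ 2 < 1 / 1000000 := by nlinarith
  have hgk : g w < 1 / 300 ∧ k w < 1 / 300 := by
    constructor
    · by_contra h
      push Not at h
      nlinarith [sq_nonneg (k w), g_nonneg w]
    · by_contra h
      push Not at h
      nlinarith [sq_nonneg (g w), k_nonneg w]
  obtain ⟨hg, hk⟩ := hgk
  have ha : 0 < ‖1 + w‖ := norm_pos_iff.2 hw1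
  set a := ‖1 + w‖ with hadef
  have hw2 : 1 / 100 ≤ ‖w‖ ^ 2 := by nlinarith
  have b1 : 2 * a - 1 ≤ ‖3 + 2 * w‖ := by
    have h := norm_sub_norm_le (2 * (1 + w)) (-1)
    rw [norm_neg, norm_one, norm_mul, Complex.norm_ofNat, ← hadef] at h
    have e : (2 : ℂ) * (1 + w) - -1 = 3 + 2 * w := by ring
    rwa [e] at h
  have b2 : 2 - a ≤ ‖3 + w‖ := by
    have h := norm_sub_norm_le (2 : ℂ) (-(1 + w))
    rw [norm_neg, Complex.norm_ofNat, ← hadef] at h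
    have e : (2 : ℂ) - -(1 + w) = 3 + w := by ring
    rwa [e] at h
  have b3 : a - 2 ≤ ‖3 + w‖ := by
    have h := norm_sub_norm_le (1 + w) (-2 : ℂ)
    rw [norm_neg, Complex.norm_ofNat, ← hadef] at h
    have e : (1 + w) - -2 = 3 + w := by ring
    rwa [e] at h
  unfold g at hg
  unfold k at hk
  rw [← hadef] at hg hk
  rw [div_lt_iff₀ (by positivity)] at hg hk
  rcases le_total a 1 with h | h
  · have : 1 / 100 * (2 - a) ≤ ‖w‖ ^ 2 * ‖3 + w‖ :=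
      mul_le_mul hw2 b2 (by linarith) (by positivity)
    linarith
  · rcases le_total a 3 with h3 | h3
    · have : 1 / 100 * (2 * a - 1) ≤ ‖w‖ ^ 2 * ‖3 + 2 * w‖ :=
        mul_le_mul hw2 b1 (by linarith) (by positivity)
      nlinarith
    · have : 1 / 100 * (a - 2) ≤ ‖w‖ ^ 2 * ‖3 + w‖ :=
        mul_le_mul hw2 b3 (by linarith) (by positivity)
      linarith

lemma mem_of_small {δ : ℝ} (h0 : 0 < δ) (h1 : δ < 1 / 1000) {w : ℂ} (hw0 : w ≠ 0)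
    (hw : ‖w‖ < δ) : w ∈ W δ := by
  have hw1 : ‖w‖ ≤ 1 / 10 := by linarith
  have p1 := one_add_pos hw1
  refine ⟨hw0, fun h => ?_, ?_⟩
  · rw [h, norm_zero] at p1; norm_num at p1
  · have c1 : ‖3 + 2 * w‖ ≤ 32 / 10 := by
      refine (norm_add_le _ _).trans ?_
      rw [norm_mul, Complex.norm_ofNat, Complex.norm_ofNat]
      linarith
    have c2 : ‖3 + w‖ ≤ 31 / 10 := by
      refine (norm_add_le _ _).trans ?_
      rw [Complex.norm_ofNat]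
      linarith
    have d1 : g w ≤ 4 * ‖w‖ ^ 2 := by
      unfold g
      rw [div_le_iff₀ (by positivity)]
      have : (81 / 100 : ℝ) ≤ ‖1 + w‖ ^ 2 := by nlinarith
      have h1 : ‖w‖ ^ 2 * ‖3 + 2 * w‖ ≤ ‖w‖ ^ 2 * (32 / 10) :=
        mul_le_mul_of_nonneg_left c1 (by positivity)
      have h2 : ‖w‖ ^ 2 * (81 / 100) ≤ ‖w‖ ^ 2 * ‖1 + w‖ ^ 2 :=
        mul_le_mul_of_nonneg_left this (by positivity)
      nlinarith [sq_nonneg ‖w‖]
    have d2 : k w ≤ 4 * ‖w‖ ^ 2 := by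
      unfold k
      rw [div_le_iff₀ (by positivity)]
      have h1 : ‖w‖ ^ 2 * ‖3 + w‖ ≤ ‖w‖ ^ 2 * (31 / 10) :=
        mul_le_mul_of_nonneg_left c2 (by positivity)
      have h2 : ‖w‖ ^ 2 * (9 / 10) ≤ ‖w‖ ^ 2 * ‖1 + w‖ :=
        mul_le_mul_of_nonneg_left p1 (by positivity)
      nlinarith [sq_nonneg ‖w‖]
    have hwp : 0 ≤ ‖w‖ := norm_nonneg w
    have e1 : g w ^ 2 ≤ (4 * ‖w‖ ^ 2) ^ 2 := pow_le_pow_left₀ (g_nonneg w) d1 2
    have e2 : k w ^ 2 ≤ (4 * ‖w‖ ^ 2) ^ 2 := pow_le_pow_left₀ (k_nonneg w) d2 2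
    have e3 : ‖w‖ ^ 2 ≤ 1 / 100 := by nlinarith
    have e4 : ‖w‖ ^ 2 < δ ^ 2 := pow_lt_pow_left₀ hw hwp (by norm_num)
    have e5 : (4 * ‖w‖ ^ 2) ^ 2 ≤ 16 / 100 * ‖w‖ ^ 2 := by
      nlinarith [sq_nonneg ‖w‖]
    nlinarith [sq_nonneg ‖w‖]

lemma isPreconnected_punctured {δ : ℝ} (h0 : 0 < δ) :
    IsPreconnected {w : ℂ | w ≠ 0 ∧ ‖w‖ < δ} := by
  have h : {w : ℂ | w ≠ 0 ∧ ‖w‖ < δ} = Complex.exp '' {z : ℂ | z.re < Real.log δ} := by
    ext w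
    constructor
    · rintro ⟨hw0, hw⟩
      refine ⟨Complex.log w, ?_, Complex.exp_log hw0⟩
      change (Complex.log w).re < Real.log δ
      rw [Complex.log_re]
      exact Real.log_lt_log (norm_pos_iff.2 hw0) hw
    · rintro ⟨z, hz, rfl⟩
      refine ⟨Complex.exp_ne_zero z, ?_⟩
      rw [Complex.norm_exp]
      exact (Real.lt_log_iff_exp_lt h0).1 hz
  rw [h]
  exact ((convex_halfSpace_re_lt _).isPreconnected).image _ Complex.continuous_exp.continuousOn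

lemma isPreconnected_W {δ : ℝ} (h0 : 0 < δ) (h1 : δ < 1 / 1000) : IsPreconnected (W δ) := by
  have hbase : ((δ / 2 : ℝ) : ℂ) ∈ {w : ℂ | w ≠ 0 ∧ ‖w‖ < δ} := by
    refine ⟨?_, ?_⟩
    · exact_mod_cast (by positivity : δ / 2 ≠ 0)
    · rw [Complex.norm_real, Real.norm_eq_abs, abs_of_pos (by positivity)]
      linarith
  have hsub : {w : ℂ | w ≠ 0 ∧ ‖w‖ < δ} ⊆ W δ := fun w hw => mem_of_small h0 h1 hw.1 hw.2
  apply isPreconnected_of_forall ((δ / 2 : ℝ) : ℂ)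
  intro y hy
  have hy1 := small_of_mem h0 h1 hy
  refine ⟨{w : ℂ | w ≠ 0 ∧ ‖w‖ < δ} ∪ (fun l : ℝ => (l : ℂ) * y) '' Set.Ioc 0 1, ?_, Or.inl hbase,
    Or.inr ⟨1, ⟨one_pos, le_rfl⟩, by simp⟩, ?_⟩
  · apply Set.union_subset hsub
    rintro _ ⟨l, ⟨hl0, hl1⟩, rfl⟩
    have hlc : (l : ℂ) ≠ 0 := by exact_mod_cast hl0.ne'
    have hlw : ‖(l : ℂ) * y‖ ≤ 1 / 10 := by
      rw [norm_mul, Complex.norm_real, Real.norm_eq_abs, abs_of_pos hl0]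
      nlinarith [norm_nonneg y]
    refine ⟨mul_ne_zero hlc hy.1, fun h => ?_, ?_⟩
    · have := one_add_pos hlw
      rw [h, norm_zero] at this
      norm_num at this
    · refine lt_of_le_of_lt ?_ hy.2.2
      exact add_le_add (pow_le_pow_left₀ (g_nonneg _) (g_mono hy1.le hl0.le hl1) 2)
        (pow_le_pow_left₀ (k_nonneg _) (k_mono hy1.le hl0.le hl1) 2)
  · have hpt : (((δ / 2 : ℝ)) : ℂ) * y ∈ {w : ℂ | w ≠ 0 ∧ ‖w‖ < δ} := by
      refine ⟨mul_ne_zero hbase.1 hy.1, ?_⟩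
      rw [norm_mul, Complex.norm_real, Real.norm_eq_abs, abs_of_pos (by positivity)]
      nlinarith [norm_nonneg y]
    have hpt2 : (((δ / 2 : ℝ)) : ℂ) * y ∈ (fun l : ℝ => (l : ℂ) * y) '' Set.Ioc 0 1 :=
      ⟨δ / 2, ⟨by positivity, by linarith⟩, rfl⟩
    refine IsPreconnected.union ((((δ / 2 : ℝ)) : ℂ) * y) hpt hpt2 (isPreconnected_punctured h0) ?_
    apply isPreconnected_Ioc.image
    exact (Complex.continuous_ofReal.mul continuous_const).continuousOn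

end Run7.h212.Deltoid
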