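import Mathlib

/-!
The deltoid `u²v² + 18uv - 4u³ - 4v³ - 27 = 0` and its parametrisation
`t ↦ (2t + t⁻², t² + 2t⁻¹)` by the nonzero complex numbers.
-/

set_option autoImplicit false

namespace Run7.h212.Deltoid

/-- the defining function -/
def F (u v : ℂ) : ℂ := u ^ 2 * v ^ 2 + 18 * u * v - 4 * u ^ 3 - 4 * v ^ 3 - 27

/-- first coordinate -/
noncomputable def U (t : ℂ) : ℂ := 2 * t + (t ^ 2)⁻¹
/-- second coordinate -/
noncomputable def V (t : ℂ) : ℂ := t ^ 2 + 2 * t⁻¹

lemma F_param {t : ℂ} (ht : t ≠ 0) : F (U t) (V t) = 0 := by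
  unfold F U V
  field_simp
  ring

lemma disc_param {t : ℂ} (ht : t ≠ 0) : U t ^ 2 - 3 * V t = (t - (t ^ 2)⁻¹) ^ 2 := by
  unfold U V
  field_simp
  ring

lemma lin_param {t : ℂ} (ht : t ≠ 0) : U t * V t - 9 = 2 * t * (U t ^ 2 - 3 * V t) := by
  unfold U V
  field_simp
  ring

lemma sq_param {t : ℂ} (ht : t ≠ 0) : (t - U t / 3) ^ 2 = (U t ^ 2 - 3 * V t) / 9 := by
  unfold U V
  field_simp
  ring

/-- `t` is determined by the point -/
lemma param_inj {s t : ℂ} (hs : s ≠ 0) (ht : t ≠ 0) (hU : U s = U t) (hV : V s = V t) :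
    s = t := by
  by_cases hD : U t ^ 2 - 3 * V t = 0
  · have h1 := sq_param hs
    have h2 := sq_param ht
    rw [hU, hV, hD, zero_div] at h1
    rw [hD, zero_div] at h2
    have h3 : s - U t / 3 = 0 := by simpa using h1
    have h4 : t - U t / 3 = 0 := by simpa using h2
    linear_combination h3 - h4
  · have h1 := lin_param hs
    have h2 := lin_param ht
    rw [hU, hV] at h1
    rw [h1] at h2
    have h3 : (s - t) * (2 * (U t ^ 2 - 3 * V t)) = 0 := by linear_combination h2
    rcases mul_eq_zero.1 h3 with h | h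
    · exact sub_eq_zero.1 h
    · exact absurd (by linear_combination h / 2) hD

/-- every point of the deltoid is parametrised -/
lemma exists_param {u v : ℂ} (h : F u v = 0) : ∃ t : ℂ, t ≠ 0 ∧ U t = u ∧ V t = v := by
  unfold F at h
  by_cases hD : u ^ 2 - 3 * v = 0
  · have hv : v = u ^ 2 / 3 := by linear_combination -hD / 3
    have hu3 : u ^ 3 = 27 := by
      have : (u ^ 3 - 27) ^ 2 = 0 := by
        rw [hv] at h
        linear_combination -27 * h
      have := pow_eq_zero_iff (two_ne_zero) |>.1 this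
      linear_combination this
    have hu0 : u ≠ 0 := by
      rintro rfl
      norm_num at hu3
    refine ⟨u / 3, by simpa using hu0, ?_, ?_⟩
    · unfold U
      field_simp
      linear_combination -hu3
    · unfold V
      rw [hv]
      field_simp
      linear_combination -2 * hu3
  · obtain ⟨D, hDdef⟩ : ∃ D, D = u ^ 2 - 3 * v := ⟨_, rfl⟩
    rw [← hDdef] at hD
    obtain ⟨t, ht⟩ : ∃ t, t = (u * v - 9) / (2 * D) := ⟨_, rfl⟩
    have hlin : 2 * D * t = u * v - 9 := by rw [ht]; field_simp
    have hq : 3 * t ^ 2 = 2 * u * t - v := by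
      have h1 : (4 * D ^ 2) * (3 * t ^ 2 - (2 * u * t - v)) = 0 := by
        have e : (4 * D ^ 2) * (3 * t ^ 2 - (2 * u * t - v)) =
            3 * (2 * D * t) ^ 2 - 4 * u * D * (2 * D * t) + 4 * v * D ^ 2 := by ring
        rw [e, hlin, hDdef]
        linear_combination -9 * h
      rcases mul_eq_zero.1 h1 with h2 | h2
      · exfalso
        apply hD
        have : D ^ 2 = 0 := by linear_combination h2 / 4
        exact pow_eq_zero_iff (two_ne_zero) |>.1 this
      · linear_combination h2
    have hone : t ^ 2 * (u - 2 * t) = 1 := by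
      rw [hDdef] at hlin
      linear_combination (-(2:ℂ)/3 * t - u / 9) * hq - hlin / 9
    have ht0 : t ≠ 0 := by
      rintro h0
      rw [h0] at hone
      norm_num at hone
    have hinv : (t ^ 2)⁻¹ = u - 2 * t := by
      field_simp
      linear_combination -hone
    have hinv1 : t⁻¹ = t * (u - 2 * t) := by
      field_simp
      linear_combination -hone
    refine ⟨t, ht0, ?_, ?_⟩
    · unfold U
      rw [hinv]; ring
    · unfold V
      rw [hinv1]
      linear_combination -hq

end Run7.h212.Deltoid
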