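import Mathlib
import Pool.Agent.Run7.h212.Deltoid.Param
import Pool.Agent.Run7.h212.Deltoid.Irr
import Pool.Agent.Run7.h212.Deltoid.Local

/-!
The deltoid curve in the complex plane is homeomorphic to the punctured complex line, so its first
Betti number is one, and it has three cusps.
-/

set_option autoImplicit false

open Topology Filter

namespace Run7.h212.Deltoid

/-- the curve -/
abbrev Curve : Set (Fin 2 → ℂ) := {z : Fin 2 → ℂ | MvPolynomial.eval z poly = 0}

lemma eval_poly (z : Fin 2 → ℂ) : MvPolynomial.eval z poly = F (z 0) (z 1) := by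
  simp [poly, F]

lemma eval_pderiv_zero (z : Fin 2 → ℂ) : MvPolynomial.eval z (MvPolynomial.pderiv 0 poly) =
    2 * z 0 * z 1 ^ 2 + 18 * z 1 - 12 * z 0 ^ 2 := by
  simp [poly, MvPolynomial.pderiv_X]
  ring

lemma eval_pderiv_one (z : Fin 2 → ℂ) : MvPolynomial.eval z (MvPolynomial.pderiv 1 poly) =
    2 * z 0 ^ 2 * z 1 + 18 * z 0 - 12 * z 1 ^ 2 := by
  simp [poly, MvPolynomial.pderiv_X]
  ring

/-- the point with parameter `t` -/
noncomputable def pt (t : ℂ) : Fin 2 → ℂ := ![U t, V t]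

lemma pt_mem {t : ℂ} (ht : t ≠ 0) : MvPolynomial.eval (pt t) poly = 0 := by
  rw [eval_poly]
  exact F_param ht

lemma exists_pt {q : Fin 2 → ℂ} (hq : MvPolynomial.eval q poly = 0) : ∃ t : ℂ, t ≠ 0 ∧ pt t = q := by
  rw [eval_poly] at hq
  obtain ⟨t, ht, h0, h1⟩ := exists_param hq
  refine ⟨t, ht, ?_⟩
  funext i
  fin_cases i
  · exact h0
  · exact h1

/-- the parameter of a point -/
noncomputable def par (q : Curve) : ℂ := (exists_pt q.2).choose

lemma par_ne (q : Curve) : par q ≠ 0 := (exists_pt q.2).choose_spec.1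
lemma pt_par (q : Curve) : pt (par q) = q.1 := (exists_pt q.2).choose_spec.2

lemma U_par (q : Curve) : U (par q) = q.1 0 := congrFun (pt_par q) 0
lemma V_par (q : Curve) : V (par q) = q.1 1 := congrFun (pt_par q) 1

lemma continuous_par : Continuous par := by
  have hc0 : Continuous fun q : Curve => q.1 0 := (continuous_apply 0).comp continuous_subtype_val
  have hc1 : Continuous fun q : Curve => q.1 1 := (continuous_apply 1).comp continuous_subtype_val
  have hD : Continuous fun q : Curve => q.1 0 ^ 2 - 3 * q.1 1 :=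
    (hc0.pow 2).sub (continuous_const.mul hc1)
  rw [continuous_iff_continuousAt]
  intro q₀
  by_cases h0 : q₀.1 0 ^ 2 - 3 * q₀.1 1 = 0
  · -- the cusps
    have hsq : ∀ q : Curve, ‖par q - q.1 0 / 3‖ = Real.sqrt (‖q.1 0 ^ 2 - 3 * q.1 1‖ / 9) := by
      intro q
      have h := sq_param (par_ne q)
      rw [U_par, V_par] at h
      have h1 := congrArg norm h
      rw [norm_pow, norm_div] at h1
      rw [eq_comm, Real.sqrt_eq_iff_mul_self_eq (by positivity) (norm_nonneg _), ← pow_two, h1]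
      norm_num
    have hz : Tendsto (fun q : Curve => par q - q.1 0 / 3) (𝓝 q₀) (𝓝 0) := by
      rw [tendsto_zero_iff_norm_tendsto_zero]
      simp only [hsq]
      have hcont : Continuous fun q : Curve => Real.sqrt (‖q.1 0 ^ 2 - 3 * q.1 1‖ / 9) :=
        (hD.norm.div_const 9).sqrt
      have := hcont.tendsto q₀
      simpa [h0] using this
    have hpar : par q₀ = q₀.1 0 / 3 := by
      have := hsq q₀
      rw [h0, norm_zero, zero_div, Real.sqrt_zero, norm_eq_zero] at this
      linear_combination this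
    have h1 : Tendsto (fun q : Curve => (par q - q.1 0 / 3) + q.1 0 / 3) (𝓝 q₀)
        (𝓝 (0 + q₀.1 0 / 3)) := hz.add ((hc0.div_const 3).tendsto q₀)
    rw [ContinuousAt, hpar]
    simpa using h1
  · have hform : ∀ᶠ q : Curve in 𝓝 q₀,
        (q.1 0 * q.1 1 - 9) / (2 * (q.1 0 ^ 2 - 3 * q.1 1)) = par q := by
      filter_upwards [hD.continuousAt.eventually_ne h0] with q hq
      have h := lin_param (par_ne q)
      rw [U_par, V_par] at h
      rw [h, div_eq_iff (mul_ne_zero two_ne_zero hq)]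
      ring
    apply ContinuousAt.congr _ hform
    apply ContinuousAt.div
    · exact ((hc0.mul hc1).sub continuous_const).continuousAt
    · exact (continuous_const.mul hD).continuousAt
    · exact mul_ne_zero two_ne_zero h0

/-- the curve is a punctured line -/
noncomputable def homeo : {z : ℂ // z ≠ 0} ≃ₜ Curve where
  toFun t := ⟨pt t.1, pt_mem t.2⟩
  invFun q := ⟨par q, par_ne q⟩
  left_inv t := by
    apply Subtype.ext
    have h := pt_par ⟨pt t.1, pt_mem t.2⟩
    exact param_inj (par_ne _) t.2 (congrFun h 0) (congrFun h 1)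
  right_inv q := Subtype.ext (pt_par q)
  continuous_toFun := by
    apply Continuous.subtype_mk
    apply continuous_pi
    intro i
    have h1 : Continuous fun t : {z : ℂ // z ≠ 0} => ((t : ℂ))⁻¹ :=
      continuous_subtype_val.inv₀ (fun t => t.2)
    have h2 : Continuous fun t : {z : ℂ // z ≠ 0} => ((t : ℂ) ^ 2)⁻¹ :=
      (continuous_subtype_val.pow 2).inv₀ (fun t => pow_ne_zero 2 t.2)
    fin_cases i
    · exact (continuous_const.mul continuous_subtype_val).add h2
    · exact (continuous_subtype_val.pow 2).add (continuous_const.mul h1)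
  continuous_invFun := continuous_par.subtype_mk _

lemma finrank_le (x₀ : Curve) :
    Module.finrank ℤ (Additive (Abelianization (FundamentalGroup Curve x₀))) ≤ 1 := by
  have hcov := Complex.isAddQuotientCoveringMap_exp.homeomorph_comp homeo
  have hsurj := hcov.surjective x₀
  obtain ⟨e, he⟩ := hsurj
  let E := hcov.fundamentalGroupEquiv (x := x₀) ⟨e, he⟩
  let G := AddSubgroup.zmultiples (2 * Real.pi * Complex.I : ℂ)
  have h1 : IsCyclic (Multiplicative G) := inferInstance
  have h2 : IsCyclic (Multiplicative G)ᵐᵒᵖ :=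
    isCyclic_of_surjective (MulOpposite.opMulEquiv : Multiplicative G ≃* (Multiplicative G)ᵐᵒᵖ)
      (MulEquiv.surjective _)
  have h3 : IsCyclic (FundamentalGroup Curve x₀) :=
    isCyclic_of_surjective E.symm (MulEquiv.surjective _)
  have h4 : IsCyclic (Abelianization (FundamentalGroup Curve x₀)) :=
    isCyclic_of_surjective (Abelianization.of (G := FundamentalGroup Curve x₀))
      (QuotientGroup.mk_surjective)
  obtain ⟨a, ha⟩ := h4
  apply finrank_le_one (Additive.ofMul a)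
  intro w
  obtain ⟨n, hn⟩ := Subgroup.mem_zpowers_iff.1 (ha (Additive.toMul w))
  refine ⟨n, ?_⟩
  rw [← ofMul_zpow, hn]
  rfl

/-- the partial derivatives vanish exactly at the cusps -/
lemma cusp_of_sing {t : ℂ} (ht : t ≠ 0)
    (h : MvPolynomial.eval (pt t) (MvPolynomial.pderiv 0 poly) = 0) : t ^ 3 = 1 := by
  rw [eval_pderiv_zero] at h
  have h1 : t ^ 4 * (2 * U t * V t ^ 2 + 18 * V t - 12 * U t ^ 2) = 4 * (t ^ 3 - 1) ^ 3 := by
    unfold U V
    field_simp
    ring
  have h2 : (2 * U t * V t ^ 2 + 18 * V t - 12 * U t ^ 2) = 0 := h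
  rw [h2, mul_zero] at h1
  have h3 : (t ^ 3 - 1) ^ 3 = 0 := by linear_combination -h1 / 4
  have := pow_eq_zero_iff (three_ne_zero) |>.1 h3
  linear_combination this

lemma sing_of_cusp {t : ℂ} (h3 : t ^ 3 = 1) (i : Fin 2) :
    MvPolynomial.eval (pt t) (MvPolynomial.pderiv i poly) = 0 := by
  have ht : t ≠ 0 := by
    rintro rfl
    norm_num at h3
  have hU : U t = 3 * t := by
    unfold U
    field_simp
    linear_combination -h3
  have hV : V t = 3 * t ^ 2 := by
    unfold V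
    field_simp
    linear_combination -2 * h3
  fin_cases i
  · change MvPolynomial.eval (pt t) (MvPolynomial.pderiv 0 poly) = 0
    rw [eval_pderiv_zero]
    change 2 * U t * V t ^ 2 + 18 * V t - 12 * U t ^ 2 = 0
    rw [hU, hV]
    linear_combination (54 * t ^ 2) * h3
  · change MvPolynomial.eval (pt t) (MvPolynomial.pderiv 1 poly) = 0
    rw [eval_pderiv_one]
    change 2 * U t ^ 2 * V t + 18 * U t - 12 * V t ^ 2 = 0
    rw [hU, hV]
    linear_combination (-54 * t) * h3

lemma norm_of_cusp {t : ℂ} (h3 : t ^ 3 = 1) : ‖t‖ = 1 := by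
  have h := congrArg norm h3
  rw [norm_pow, norm_one] at h
  exact (pow_eq_one_iff_of_nonneg (norm_nonneg t) three_ne_zero).1 h

lemma dist_U {t₀ : ℂ} (h3 : t₀ ^ 3 = 1) {w : ℂ} (hw : 1 + w ≠ 0) :
    ‖U (t₀ * (1 + w)) - U t₀‖ = g w := by
  have ht : t₀ ≠ 0 := by
    rintro rfl
    norm_num at h3
  have e : U (t₀ * (1 + w)) - U t₀ = t₀ * (w ^ 2 * (3 + 2 * w) / (1 + w) ^ 2) := by
    unfold U
    field_simp
    linear_combination (2 * w + w ^ 2) * h3
  rw [e, norm_mul, norm_of_cusp h3, one_mul, norm_div, norm_mul, norm_pow, norm_pow]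
  rfl

lemma dist_V {t₀ : ℂ} (h3 : t₀ ^ 3 = 1) {w : ℂ} (hw : 1 + w ≠ 0) :
    ‖V (t₀ * (1 + w)) - V t₀‖ = k w := by
  have ht : t₀ ≠ 0 := by
    rintro rfl
    norm_num at h3
  have e : V (t₀ * (1 + w)) - V t₀ = t₀ ^ 2 * (w ^ 2 * (3 + w) / (1 + w)) := by
    unfold V
    field_simp
    linear_combination (2 * w) * h3
  rw [e, norm_mul, norm_pow, norm_of_cusp h3, one_pow, one_mul, norm_div, norm_mul, norm_pow]
  rfl

/-- the punctured neighbourhoods of a cusp are connected -/
lemma unibranch {t₀ : ℂ} (h3 : t₀ ^ 3 = 1) {δ : ℝ} (h0 : 0 < δ) (h1 : δ < 1 / 1000) :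
    IsPreconnected {q : Fin 2 → ℂ | MvPolynomial.eval q poly = 0 ∧ q ≠ pt t₀ ∧
      ‖q 0 - pt t₀ 0‖ ^ 2 + ‖q 1 - pt t₀ 1‖ ^ 2 < δ ^ 2} := by
  have ht : t₀ ≠ 0 := by
    rintro rfl
    norm_num at h3
  have himg : {q : Fin 2 → ℂ | MvPolynomial.eval q poly = 0 ∧ q ≠ pt t₀ ∧
      ‖q 0 - pt t₀ 0‖ ^ 2 + ‖q 1 - pt t₀ 1‖ ^ 2 < δ ^ 2} =
      (fun w : ℂ => pt (t₀ * (1 + w))) '' W δ := by
    ext q
    constructor
    · rintro ⟨hq, hne, hd⟩
      obtain ⟨t, ht0, rfl⟩ := exists_pt hq
      have hw1 : 1 + (t / t₀ - 1) ≠ 0 := by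
        rw [add_sub_cancel]
        exact div_ne_zero ht0 ht
      have htw : t₀ * (1 + (t / t₀ - 1)) = t := by
        rw [add_sub_cancel, mul_div_cancel₀ _ ht]
      refine ⟨t / t₀ - 1, ⟨fun h => hne ?_, hw1, ?_⟩, ?_⟩
      · congr 1
        rw [sub_eq_zero, div_eq_one_iff_eq ht] at h
        exact h
      · rw [← dist_U h3 hw1, ← dist_V h3 hw1, htw]
        exact hd
      · simp only [htw]
    · rintro ⟨w, ⟨hw0, hw1, hd⟩, rfl⟩
      refine ⟨pt_mem (mul_ne_zero ht hw1), fun h => hw0 ?_, ?_⟩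
      · have := param_inj (mul_ne_zero ht hw1) ht (congrFun h 0) (congrFun h 1)
        have h2 : t₀ * w = 0 := by linear_combination this
        rcases mul_eq_zero.1 h2 with h | h
        · exact absurd h ht
        · exact h
      · rw [← dist_U h3 hw1, ← dist_V h3 hw1] at hd
        exact hd
  rw [himg]
  apply (isPreconnected_W h0 h1).image
  intro w hw
  apply ContinuousAt.continuousWithinAt
  have hne : t₀ * (1 + w) ≠ 0 := mul_ne_zero ht hw.2.1
  rw [continuousAt_pi]
  intro i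
  fin_cases i
  · change ContinuousAt (fun w : ℂ => 2 * (t₀ * (1 + w)) + ((t₀ * (1 + w)) ^ 2)⁻¹) w
    apply ContinuousAt.add (by fun_prop)
    exact ContinuousAt.inv₀ (by fun_prop) (pow_ne_zero 2 hne)
  · change ContinuousAt (fun w : ℂ => (t₀ * (1 + w)) ^ 2 + 2 * (t₀ * (1 + w))⁻¹) w
    apply ContinuousAt.add (by fun_prop)
    exact continuousAt_const.mul (ContinuousAt.inv₀ (by fun_prop) hne)

/-- the set of unibranch singular points -/
def Sing : Set (Fin 2 → ℂ) := {p : Fin 2 → ℂ | MvPolynomial.eval p poly = 0 ∧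
        (∀ i : Fin 2, MvPolynomial.eval p (MvPolynomial.pderiv i poly) = 0) ∧
        ∃ ε : ℝ, 0 < ε ∧ ∀ δ : ℝ, 0 < δ → δ < ε →
          IsPreconnected {q : Fin 2 → ℂ | MvPolynomial.eval q poly = 0 ∧ q ≠ p ∧
            ‖q 0 - p 0‖ ^ 2 + ‖q 1 - p 1‖ ^ 2 < δ ^ 2}}

lemma Sing_eq : Sing = pt '' {t : ℂ | t ^ 3 = 1} := by
  ext p
  constructor
  · rintro ⟨hp, hd, -⟩
    obtain ⟨t, ht, rfl⟩ := exists_pt hp
    exact ⟨t, cusp_of_sing ht (hd 0), rfl⟩
  · rintro ⟨t, h3, rfl⟩
    have h3' : t ^ 3 = 1 := h3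
    have ht : t ≠ 0 := by
      rintro rfl
      norm_num at h3'
    exact ⟨pt_mem ht, sing_of_cusp h3', 1 / 1000, by norm_num, fun δ h0 h1 => unibranch h3' h0 h1⟩

lemma ncard_cube_roots : Set.ncard {t : ℂ | t ^ 3 = 1} = 3 := by
  have hω := Complex.isPrimitiveRoot_exp 3 three_ne_zero
  have h := hω.card_nthRootsFinset
  have e : {t : ℂ | t ^ 3 = 1} = (Polynomial.nthRootsFinset 3 (1 : ℂ) : Set ℂ) := by
    ext t
    simp
  rw [e, Set.ncard_coe_finset]
  exact h

lemma ncard_Sing : Sing.ncard = 3 := by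
  rw [Sing_eq, Set.InjOn.ncard_image, ncard_cube_roots]
  intro s hs t ht hst
  have hs3 : s ^ 3 = 1 := hs
  have ht3 : t ^ 3 = 1 := ht
  have hs0 : s ≠ 0 := by rintro rfl; norm_num at hs3
  have ht0 : t ≠ 0 := by rintro rfl; norm_num at ht3
  exact param_inj hs0 ht0 (congrFun hst 0) (congrFun hst 1)

end Run7.h212.Deltoid
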